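import Pool.Agent.H83.HN.Moduli
import Pool.Agent.H83.HP.Forms
import Pool.Agent.H36.HP.OnY

/-!
# Hyperkaehler manifolds with `b_2 >= 5`: the published facts

`Manifold` (file `Pool/Agent/H83/HN/Iface`) contains the geometry of one projective hyperkaehler
manifold of dimension `2n`, `ModClass` (file `Pool/Agent/H83/HN/Moduli`) the moduli theory, `Forms`
(file `Pool/Agent/H83/HP/Forms`) smooth functions, closed `(1,1)`-forms and Lelong numbers, `Coh`
(file `Pool/Agent/H36/HP/OnY`) cohomology and holomorphic forms with values in line bundles.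
-/

namespace Pool.Agent.H46.P

open Pool.Agent.H83.HN Pool.Agent.H83.HP Pool.Agent.H36.HP Filter Topology

open scoped BigOperators

/-- THE PERIOD of a marked manifold: the real vectors `Re σ = ∑ c_j e_j` and `Im σ = ∑ d_j e_j`,
`e_j` in the lattice; they are a basis of a positive plane. -/
structure Per {Lam : Type} (q : Lam → Lam → ℤ) where
  k : ℕ
  e : Fin k → Lam
  c : Fin k → ℝ
  d : Fin k → ℝ
  c_pos : 0 < ∑ i, ∑ j, c i * c j * (q (e i) (e j) : ℝ)
  d_pos : 0 < ∑ i, ∑ j, d i * d j * (q (e i) (e j) : ℝ)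
  orth : ∑ i, ∑ j, c i * d j * (q (e i) (e j) : ℝ) = 0

/-- `q(x, Re σ)`. -/
def Per.re {Lam : Type} {q : Lam → Lam → ℤ} (π : Per q) (x : Lam) : ℝ :=
  ∑ j, π.c j * (q x (π.e j) : ℝ)

/-- `q(x, Im σ)`. -/
def Per.im {Lam : Type} {q : Lam → Lam → ℤ} (π : Per q) (x : Lam) : ℝ :=
  ∑ j, π.d j * (q x (π.e j) : ℝ)

/-- DEFORMATION CLASS of hyperkaehler manifolds of dimension `2n` with `b_2 >= 5`, with the local
families and the analytic data of its projective members. -/
structure PClass (n : ℕ) (Lam : Type) [AddCommGroup Lam] extends ModClass n Lam where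
  /-- no wall meets the ample cone. -/
  wall : ∀ Y, ∀ z ∈ MBM, z ∈ (M Y).NS → ∀ kappa ∈ (M Y).Ample, ∀ y ∈ (M Y).Ample,
    0 < q kappa z → 0 < q y z
  /-- the period; LEFSCHETZ's theorem on `(1,1)`-classes. -/
  per : Mem → Per q
  NS_per : ∀ Y x, x ∈ (M Y).NS ↔ (per Y).re x = 0 ∧ (per Y).im x = 0
  /-- THE LOCAL FAMILY `X_t` of a member `X` (KURANISHI; BEAUVILLE's local Torelli theorem). Let `a`
  be ample on `X` and `L` in `NS X`. Oriented rational positive planes `<s_k p1_k, t_k p2_k>`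
  orthogonal to `a` and `L` which tend to `<Re σ, Im σ>` are, for large `k`, the periods of members
  `Y_k` of the family, which tend to `X`; `NS Y_k` consists of the classes orthogonal to the plane,
  `a` stays ample, and `h^0(mL)` is upper semicontinuous. -/
  near : ∀ X, ∀ a ∈ (M X).Ample, ∀ L ∈ (M X).NS, ∀ (p1 p2 : ℕ → Lam) (s t : ℕ → ℝ),
    (∀ k, 0 < q (p1 k) (p1 k)) → (∀ k, 0 < q (p2 k) (p2 k)) → (∀ k, q (p1 k) (p2 k) = 0) →
    (∀ k, q a (p1 k) = 0 ∧ q a (p2 k) = 0 ∧ q L (p1 k) = 0 ∧ q L (p2 k) = 0) →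
    (∀ x, Tendsto (fun k => s k * (q x (p1 k) : ℝ)) atTop (𝓝 ((per X).re x))) →
    (∀ x, Tendsto (fun k => t k * (q x (p2 k) : ℝ)) atTop (𝓝 ((per X).im x))) →
    ∃ (Y : ℕ → Mem) (k0 : ℕ),
      (∀ k, k0 ≤ k → (∀ x, x ∈ (M (Y k)).NS ↔ q x (p1 k) = 0 ∧ q x (p2 k) = 0) ∧
        a ∈ (M (Y k)).Ample) ∧
      ∀ m : ℕ, (∀ k1, ∃ k, k1 ≤ k ∧ (M (Y k)).Sec (m • L) ≠ ⊥) → (M X).Sec (m • L) ≠ ⊥
  /-- smooth functions, closed forms and Lelong numbers. -/
  forms : ∀ Y, Forms (M Y)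
  /-- cohomology and holomorphic forms with values in the multiples of an isotropic nef class. -/
  coh : ∀ Y, ∀ x ∈ (M Y).Nef, q x x = 0 → x ≠ 0 → Coh (M Y) (forms Y) x
  /-- GONGYO-MATSUMURA (extension theorem for metrics with zero Lelong numbers), FUJINO (abundance
  for semi log canonical threefolds), FUKUDA: on a fourfold with trivial canonical class a nef class
  with zero Lelong numbers, a positive multiple of which is effective, is semiample. -/
  gongyo_matsumura : n = 2 → ∀ Y, ∀ x ∈ (M Y).Nef, (∀ y, (forms Y).lel x y = 0) →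
    ∀ m : ℕ, 0 < m → (M Y).Sec (m • x) ≠ ⊥ → x ∈ (M Y).Semiample

/-- MAIN STATEMENT. Every nef class on a projective hyperkaehler fourfold with `b_2 >= 5` is
semiample. For a nef class `L` with `q(L) = 0` on a projective hyperkaehler manifold of dimension
`2n >= 4` with `b_2 >= 5` one has `H^0(mL) ≠ 0` for some positive `m` bounded in terms of `n`. -/
def Statement : Prop :=
  (∀ (Lam : Type) [AddCommGroup Lam] (C : PClass 2 Lam) (X : C.Mem),
    (C.M X).Nef ⊆ (C.M X).Semiample) ∧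
  ∀ n : ℕ, 2 ≤ n → ∀ (Lam : Type) [AddCommGroup Lam] (C : PClass n Lam) (X : C.Mem),
    ∀ L ∈ (C.M X).Nef, C.q L L = 0 → ∃ m : ℕ, 0 < m ∧ m ≤ bnd n ∧ (C.M X).Sec (m • L) ≠ ⊥

end Pool.Agent.H46.P
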