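import Pool.Agent.H46.P.Class
import Pool.Agent.H83.HN.LAT
import Pool.Agent.H83.HP.ParaLel

/-!
# Theorem P, part (1): hyperkaehler fourfolds with `b_2 >= 5`
-/

namespace Pool.Agent.H46.P

open Pool.Agent.H83.HN Pool.Agent.H83.HP Pool.Agent.H36.HP

variable {n : ℕ} {Lam : Type} [AddCommGroup Lam]

/-- On a member with a parabolic automorphism some multiple of `L`, bounded in terms of `n`, is
effective. -/
theorem PClass.on_member (C : PClass n Lam) (Y : C.Mem) {L A : Lam} (hL : L ∈ (C.M Y).Nef)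
    (hLL : C.q L L = 0) (hL0 : L ≠ 0)
    (hNS : ∀ x, ∀ a : ℕ, 0 < a → a • x ∈ (C.M Y).NS → x ∈ (C.M Y).NS)
    (hprime : ∀ D ∈ (C.M Y).Prime, C.q D L = 0 → ∃ a b : ℕ, 0 < a ∧ 0 < b ∧ a • D = b • L)
    (hA : A ∈ (C.M Y).Ample) (π : Para (C.M Y) L A 1) :
    ∃ m : ℕ, 0 < m ∧ m ≤ bnd n ∧ (C.M Y).Sec (m • L) ≠ ⊥ := by
  haveI := C.free
  haveI := C.finite
  exact on_Y C.q_symm C.q_add (C.M Y) (C.forms Y) (fun x hx hxx hx0 => ⟨C.coh Y x hx hxx hx0⟩)
    hL hLL hL0 hNS hprime hA Nat.one_pos π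

/-- The Neron-Severi group of a member with rational period is saturated. -/
theorem saturated {q : Lam → Lam → ℤ} (q_add : ∀ x y z, q (x + y) z = q x z + q y z)
    {NS : AddSubgroup Lam} {p1 p2 : Lam} (h : ∀ x, x ∈ NS ↔ q x p1 = 0 ∧ q x p2 = 0)
    (x : Lam) (a : ℕ) (ha : 0 < a) (hx : a • x ∈ NS) : x ∈ NS := by
  have h1 : ∀ z, q (a • x) z = a * q x z := by
    intro z
    have := map_nsmul (AddMonoidHom.mk' (fun x => q x z) (fun a b => q_add a b z)) a x
    simpa using this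
  obtain ⟨h2, h3⟩ := (h _).1 hx
  rw [h1] at h2 h3
  have ha' : (a : ℤ) ≠ 0 := by exact_mod_cast ha.ne'
  exact (h x).2 ⟨(mul_eq_zero.1 h2).resolve_left ha', (mul_eq_zero.1 h3).resolve_left ha'⟩

/-- PART (1): every nef class on a projective hyperkaehler fourfold with `b_2 >= 5` is semiample. -/
theorem four (C : PClass 2 Lam) (X : C.Mem) : (C.M X).Nef ⊆ (C.M X).Semiample := by
  intro L hL
  by_cases hL0 : L = 0
  · rw [hL0]
    exact (C.M X).semiample_zero
  rcases lt_or_eq_of_le ((C.M X).nef_q L hL) with h | h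
  · exact (C.M X).bpf L hL h
  · have hLL : C.q L L = 0 := h.symm
    obtain ⟨Y, ⟨p1, p2, -, -, -, hNS⟩, hLY, hprime, A, hA, ⟨π⟩⟩ :=
      lat C.toModClass 1 (by have := C.rank; omega) X hL hL0 hLL
    have hA' := (C.M Y).va_ample hA
    obtain ⟨m, hm, -, hsec⟩ := C.on_member Y hLY hLL hL0 (saturated C.q_add hNS) hprime hA' π
    have hLA : 0 < C.q L A := by
      rw [C.q_symm]
      exact (C.M Y).ample_nef_q A hA' L hLY hL0
    exact C.matsushita X Y L hL0 hLL hL hLY (C.gongyo_matsumura rfl Y L hLY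
      ((C.forms Y).lel_zero_of_para C.q_symm π le_rfl hA' hLY hLL hLA) m hm hsec)

end Pool.Agent.H46.P
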