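import Pool.Agent.H46.P.Four
import Pool.Agent.H47.P.DENS2
import Pool.Agent.H41.P.MEMB
import Pool.Agent.H57.HP.Lim

/-!
# Theorem P: nef classes on hyperkaehler manifolds with `b_2 >= 5`
-/

namespace Pool.Agent.H46.P

open Pool.Agent.H83.HN Pool.Agent.H36.HP

variable {n : ℕ} {Lam : Type} [AddCommGroup Lam]

/-- PART (2): a bounded multiple of an isotropic nef class is effective. -/
theorem nonvanishing (C : PClass n Lam) (X : C.Mem) {L : Lam} (hL : L ∈ (C.M X).Nef)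
    (hLL : C.q L L = 0) : ∃ m : ℕ, 0 < m ∧ m ≤ bnd n ∧ (C.M X).Sec (m • L) ≠ ⊥ :=
  Pool.Agent.H57.HP.nonvanishing_of C X hLL fun hL0 =>
    Pool.Agent.H41.P.memb_of C X hL hL0 hLL fun _ ha B =>
      Pool.Agent.H47.P.dens C X ha hL hL0 hLL B

theorem main : Statement :=
  ⟨fun _ _ C X => four C X, fun _ _ _ _ C X _ hL hLL => nonvanishing C X hL hLL⟩

end Pool.Agent.H46.P
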